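import Pool.Agent.H29.Heis3

set_option autoImplicit false

namespace Pool.Agent.Results.MP_2c2cb6_an.Heisenberg

/-- Invertible `3 × 3` integer matrices of determinant one. -/
abbrev SL3 : Type := Matrix.SpecialLinearGroup (Fin 3) ℤ

/-- The upper unitriangular matrices. -/
def Uni : Set SL3 :=
  {M | ∀ i j : Fin 3, (i = j → M i j = 1) ∧ (j < i → M i j = 0)}

lemma uni_iff {M : SL3} : M ∈ Uni ↔
    M 0 0 = 1 ∧ M 1 1 = 1 ∧ M 2 2 = 1 ∧ M 1 0 = 0 ∧ M 2 0 = 0 ∧ M 2 1 = 0 := by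
  simp only [Uni, Set.mem_setOf_eq, Fin.forall_fin_succ]
  simp
  tauto

lemma uni_mul {a b : SL3} (ha : a ∈ Uni) (hb : b ∈ Uni) : a * b ∈ Uni := by
  obtain ⟨a1, a2, a3, a4, a5, a6⟩ := uni_iff.1 ha
  obtain ⟨b1, b2, b3, b4, b5, b6⟩ := uni_iff.1 hb
  rw [uni_iff]
  simp [Matrix.mul_apply, Fin.sum_univ_three, *]

lemma uni_one : (1 : SL3) ∈ Uni := by simp [uni_iff]

lemma uni_inv {a : SL3} (ha : a ∈ Uni) : a⁻¹ ∈ Uni := by
  obtain ⟨a1, a2, a3, a4, a5, a6⟩ := uni_iff.1 ha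
  rw [uni_iff]
  simp [Matrix.adjugate_fin_three, *]

/-- The discrete Heisenberg group: upper unitriangular `3 × 3` integer matrices. -/
def Heis : Subgroup SL3 := ⟨⟨⟨Uni, uni_mul⟩, uni_one⟩, uni_inv⟩

/-- The translation `(σ^u x)(v) = x (u + v)`. -/
def shift {V A : Type} [Add V] (u : V) (x : V → A) : V → A := fun v => x (u + v)

/-- `X` is a subshift: nonempty, closed, invariant under all translations. -/
def IsShift {V A : Type} [Add V] [TopologicalSpace A] (X : Set (V → A)) : Prop :=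
  X.Nonempty ∧ IsClosed X ∧ ∀ u : V, shift u '' X = X

/-- The self-map `f` of `X` commutes with all translations. -/
def Comm {V A : Type} [Add V] (X : Set (V → A)) (f : X → X) : Prop :=
  ∀ (u : V) (x y : X), y.1 = shift u x.1 → (f y).1 = shift u (f x).1

/-- `G` embeds into the group of those homeomorphisms `f` of `Y` that satisfy `P f`. -/
def Embeds (G Y : Type) [Group G] [TopologicalSpace Y] (P : (Y → Y) → Prop) : Prop :=
  ∃ φ : G →* (Y ≃ₜ Y), Function.Injective φ ∧ ∀ g, P (φ g)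

open Pool.Agent.H29.Heis in
theorem result : ∃ d : ℕ, 2 ≤ d ∧ ∃ (A : Type) (_ : Finite A) (_ : TopologicalSpace A)
    (_ : DiscreteTopology A) (X : Set ((Fin d → ℤ) → A)), IsShift X ∧ Embeds Heis X (Comm X) := by
  obtain ⟨d, hd, ρ, hρ, B, hB⟩ := wobble
  obtain ⟨A, h1, h2, h3, X, a, b, c, φ, hφ, hc⟩ := embed gen gen_top ρ hρ B hB
  let j : Heis →* HH :=
    { toFun := fun M => ⟨M.1 0 1, M.1 1 2, M.1 0 2⟩
      map_one' := by ext <;> simp
      map_mul' := by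
        rintro ⟨a, ha⟩ ⟨b, hb⟩
        obtain ⟨a1, a2, a3, a4, a5, a6⟩ := uni_iff.1 ha
        obtain ⟨b1, b2, b3, b4, b5, b6⟩ := uni_iff.1 hb
        ext <;> simp [Matrix.mul_apply, Fin.sum_univ_three, *] <;> ring }
  have hj : Function.Injective j := by
    rintro ⟨a, ha⟩ ⟨b, hb⟩ h
    obtain ⟨a1, a2, a3, a4, a5, a6⟩ := uni_iff.1 ha
    obtain ⟨b1, b2, b3, b4, b5, b6⟩ := uni_iff.1 hb
    have e1 : a 0 1 = b 0 1 := congrArg HH.x h
    have e2 : a 1 2 = b 1 2 := congrArg HH.y h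
    have e3 : a 0 2 = b 0 2 := congrArg HH.z h
    apply Subtype.ext
    ext i k
    fin_cases i <;> fin_cases k <;> simp [*]
  exact ⟨d, hd, A, h1, h2, h3, X, ⟨a, b, c⟩, φ.comp j, hφ.comp hj, fun g => hc (j g)⟩

end Pool.Agent.Results.MP_2c2cb6_an.Heisenberg
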